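import Mathlib
import Pool.Agent.Helper69.MC.StB

set_option autoImplicit false

open Set Topology Filter MeasureTheory
open Pool.Agent.Helper31.CY Pool.Agent.Helper69.MF Pool.Agent.Helper69.MC

namespace Pool.Agent.Helper95.MC

theorem dt_add (x y u : E3) : dt (x + y) u = dt x u + dt y u := by
  simp only [dt, PiLp.add_apply]; ring

theorem dt_smul (c : ℝ) (x u : E3) : dt (c • x) u = c * dt x u := by
  simp only [dt, PiLp.smul_apply, smul_eq_mul]; ring

theorem dt_subr (x u v : E3) : dt x (u - v) = dt x u - dt x v := by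
  simp only [dt, PiLp.sub_apply]; ring

theorem dt_cont (u : E3) : Continuous (fun x : E3 => dt x u) := by
  unfold dt; fun_prop

theorem dt_self {u : E3} (h : dt u u = 0) : u = 0 := by
  have h0 : u 0 = 0 := by
    simp only [dt] at h
    nlinarith [mul_self_nonneg (u 0), mul_self_nonneg (u 1), mul_self_nonneg (u 2)]
  have h1 : u 1 = 0 := by
    simp only [dt] at h
    nlinarith [mul_self_nonneg (u 0), mul_self_nonneg (u 1), mul_self_nonneg (u 2)]
  have h2 : u 2 = 0 := by
    simp only [dt] at h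
    nlinarith [mul_self_nonneg (u 0), mul_self_nonneg (u 1), mul_self_nonneg (u 2)]
  ext k
  fin_cases k
  · exact h0
  · exact h1
  · exact h2

/-- near a point of the common face of the cells `i` and `j`, the cut locus is a plane -/
theorem mem_Cn_iff {m : ℕ} (v : Fin m → E3) (i j : Fin m) (hij : i ≠ j) (z : E3)
    (h1 : ∀ k, k ≠ i → k ≠ j → dt z (v i) < dt z (v k))
    (h2 : ∀ k, k ≠ i → k ≠ j → dt z (v j) < dt z (v k)) :
    z ∈ Cn v ↔ dt z (v i) = dt z (v j) := by
  constructor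
  · rintro ⟨a, b, hab, he, hmin⟩
    have ha : a = i ∨ a = j := by
      by_contra hc
      push Not at hc
      exact absurd (hmin i) (not_le.mpr (h1 a hc.1 hc.2))
    have hb : b = i ∨ b = j := by
      by_contra hc
      push Not at hc
      have := hmin i
      rw [he] at this
      exact absurd this (not_le.mpr (h1 b hc.1 hc.2))
    rcases ha with rfl | rfl
    · rcases hb with rfl | rfl
      · exact absurd rfl hab
      · exact he
    · rcases hb with rfl | rfl
      · exact he.symm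
      · exact absurd rfl hab
  · intro he
    refine ⟨i, j, hij, he, fun k => ?_⟩
    by_cases hki : k = i
    · rw [hki]
    by_cases hkj : k = j
    · rw [hkj]; exact he.le
    exact (h1 k hki hkj).le

/-- the linear functional `w ↦ dt (A w) u` is `dt w N` -/
theorem exists_dual (A : E3 →L[ℝ] E3) (u : E3) : ∃ N : E3, ∀ w, dt w N = dt (A w) u := by
  refine ⟨pt (dt (A (bv 0)) u) (dt (A (bv 1)) u) (dt (A (bv 2)) u), fun w => ?_⟩
  have hw : w = w 0 • bv 0 + w 1 • bv 1 + w 2 • bv 2 := by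
    ext k
    fin_cases k <;> simp [bv]
  conv_rhs => rw [hw]
  rw [map_add, map_add, map_smul, map_smul, map_smul, dt_add, dt_add, dt_smul, dt_smul, dt_smul]
  simp [dt, pt]

theorem hLC2 : StTC1 → StLC2 := by
  intro hTC1 S m v p Φ U ρ0 hAdj hU hpU hΦ hΦp hiso hS hρ0 hball i j hij ρ hρ
  obtain ⟨hne, hadj⟩ := hAdj
  obtain ⟨y, hy, hyk⟩ := hadj i j hij
  have hcd : ∀ x ∈ U, ContDiffAt ℝ 1 Φ x := fun x hx => (hΦ x hx).contDiffAt (hU.mem_nhds hx)
  have hstr : ∀ x ∈ U, HasStrictFDerivAt Φ (fderiv ℝ Φ x) x := fun x hx =>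
    (hcd x hx).hasStrictFDerivAt (by norm_num)
  -- the derivative at `p` is invertible
  have hinj : Function.Injective (fderiv ℝ Φ p) := by
    intro a b hab
    have h := hiso (a - b)
    rw [map_sub, hab, sub_self, norm_zero] at h
    exact sub_eq_zero.mp (norm_eq_zero.mp h.symm)
  let A0 : E3 ≃L[ℝ] E3 :=
    (LinearEquiv.ofInjectiveEndo (fderiv ℝ Φ p : E3 →ₗ[ℝ] E3) hinj).toContinuousLinearEquiv
  have hA0 : (A0 : E3 →L[ℝ] E3) = fderiv ℝ Φ p := by
    ext1 w
    rfl
  have hcf : ContinuousAt (fderiv ℝ Φ) p :=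
    (hΦ.continuousOn_fderiv_of_isOpen hU le_rfl).continuousAt (hU.mem_nhds hpU)
  have hinv : ∀ᶠ x in 𝓝 p, fderiv ℝ Φ x ∈ range ((↑) : (E3 ≃L[ℝ] E3) → E3 →L[ℝ] E3) :=
    hcf.eventually_mem (ContinuousLinearEquiv.isOpen.mem_nhds ⟨A0, hA0⟩)
  -- a point `q` with `Φ q = s y`
  have hmap : map Φ (𝓝 p) = 𝓝 (Φ p) := by
    have := hstr p hpU
    rw [← hA0] at this
    exact this.map_nhds_eq_of_equiv
  have hW : {x | x ∈ Metric.ball p ρ ∧ x ∈ Metric.ball p ρ0 ∧ x ∈ U ∧
      fderiv ℝ Φ x ∈ range ((↑) : (E3 ≃L[ℝ] E3) → E3 →L[ℝ] E3)} ∈ 𝓝 p :=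
    Filter.inter_mem (Metric.ball_mem_nhds p hρ) (Filter.inter_mem (Metric.ball_mem_nhds p hρ0)
      (Filter.inter_mem (hU.mem_nhds hpU) hinv))
  have hWim : Φ '' {x | x ∈ Metric.ball p ρ ∧ x ∈ Metric.ball p ρ0 ∧ x ∈ U ∧
      fderiv ℝ Φ x ∈ range ((↑) : (E3 ≃L[ℝ] E3) → E3 →L[ℝ] E3)} ∈ 𝓝 (0 : E3) := by
    rw [← hΦp, ← hmap]
    exact image_mem_map hW
  have hlim : Tendsto (fun s : ℝ => s • y) (𝓝[>] 0) (𝓝 0) := by
    have : Tendsto (fun s : ℝ => s • y) (𝓝 0) (𝓝 ((0 : ℝ) • y)) :=
      (continuous_id.smul continuous_const).tendsto 0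
    rw [zero_smul] at this
    exact this.mono_left nhdsWithin_le_nhds
  obtain ⟨s, hs, hspos⟩ := ((hlim.eventually_mem hWim).and self_mem_nhdsWithin).exists
  have hs0 : (0 : ℝ) < s := hspos
  obtain ⟨q, ⟨hqρ, hqρ0, hqU, ⟨A, hA⟩⟩, hq⟩ := hs
  have hstrq : HasStrictFDerivAt Φ (A : E3 →L[ℝ] E3) q := by
    rw [hA]; exact hstr q hqU
  have hmapq : map Φ (𝓝 q) = 𝓝 (s • y) := by
    rw [← hq]; exact hstrq.map_nhds_eq_of_equiv
  -- inequalities at `s y`
  have hsy : dt (s • y) (v i) = dt (s • y) (v j) := by rw [dt_smul, dt_smul, hy]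
  have hsk : ∀ k, k ≠ i → k ≠ j → dt (s • y) (v i) < dt (s • y) (v k) := fun k h1 h2 => by
    rw [dt_smul, dt_smul]
    exact mul_lt_mul_of_pos_left (hyk k h1 h2) hs0
  have hO : {z : E3 | (∀ k, k ≠ i → k ≠ j → dt z (v i) < dt z (v k)) ∧
      (∀ k, k ≠ i → k ≠ j → dt z (v j) < dt z (v k))} ∈ 𝓝 (s • y) := by
    refine Filter.inter_mem ?_ ?_
    · have : ∀ k : Fin m, ∀ᶠ z in 𝓝 (s • y), k ≠ i → k ≠ j → dt z (v i) < dt z (v k) := by
        intro k
        by_cases h1 : k = i
        · exact Eventually.of_forall fun z h => absurd h1 h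
        by_cases h2 : k = j
        · exact Eventually.of_forall fun z _ h => absurd h2 h
        have := ((dt_cont (v i)).tendsto (s • y)).eventually_lt ((dt_cont (v k)).tendsto (s • y))
          (hsk k h1 h2)
        exact this.mono fun z hz _ _ => hz
      exact eventually_all.mpr this
    · have : ∀ k : Fin m, ∀ᶠ z in 𝓝 (s • y), k ≠ i → k ≠ j → dt z (v j) < dt z (v k) := by
        intro k
        by_cases h1 : k = i
        · exact Eventually.of_forall fun z h => absurd h1 h
        by_cases h2 : k = j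
        · exact Eventually.of_forall fun z _ h => absurd h2 h
        have := ((dt_cont (v j)).tendsto (s • y)).eventually_lt ((dt_cont (v k)).tendsto (s • y))
          (hsy ▸ hsk k h1 h2)
        exact this.mono fun z hz _ _ => hz
      exact eventually_all.mpr this
  have hcq : ContinuousAt Φ q := hstrq.continuousAt
  have hqS : q ∈ S := by
    rw [hS q hqU, hq]
    exact (mem_Cn_iff v i j hij _ hsk (fun k h1 h2 => hsy ▸ hsk k h1 h2)).2 hsy
  refine ⟨q, hqS, hqρ, ?_, ?_⟩
  · -- the contingent cone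
    obtain ⟨N, hN⟩ := exists_dual (A : E3 →L[ℝ] E3) (v i - v j)
    refine ⟨N, ?_, ?_⟩
    · intro h0
      have h1 : dt (v i - v j) (v i - v j) = 0 := by
        have := hN (A.symm (v i - v j))
        rw [h0] at this
        simp only [ContinuousLinearEquiv.coe_coe, ContinuousLinearEquiv.apply_symm_apply] at this
        rw [← this]
        simp [dt]
      have h2 := dt_self h1
      obtain ⟨x, hx⟩ := hne i
      have h3 := hx j hij.symm
      rw [sub_eq_zero.mp h2] at h3
      exact lt_irrefl _ h3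
    · have hU' : {x | x ∈ U ∧ Φ x ∈ {z : E3 | (∀ k, k ≠ i → k ≠ j → dt z (v i) < dt z (v k)) ∧
          (∀ k, k ≠ i → k ≠ j → dt z (v j) < dt z (v k))}} ∈ 𝓝 q := by
        refine Filter.inter_mem (hU.mem_nhds hqU) ?_
        have : Tendsto Φ (𝓝 q) (𝓝 (s • y)) := hq ▸ hcq
        exact this hO
      have hkey := hTC1 E3 E3 S q (fun x => Φ x - s • y) A {z : E3 | dt z (v i - v j) = 0} _
        (hstrq.sub_const _) (by simp [hq]) hU'
        (by
          rintro x ⟨hxU, hx1, hx2⟩
          rw [hS x hxU, mem_Cn_iff v i j hij _ hx1 hx2]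
          have e : dt (Φ x - s • y) (v i - v j) = dt (Φ x) (v i) - dt (Φ x) (v j) := by
            have e1 : Φ x - s • y = Φ x + (-1 : ℝ) • (s • y) := by
              rw [neg_one_smul, sub_eq_add_neg]
            rw [e1, dt_add, dt_smul, dt_subr, dt_subr, hsy]; ring
          simp only [mem_ofPred_eq]
          rw [e, sub_eq_zero])
        (isClosed_eq (dt_cont _) continuous_const)
        (by
          intro l _ z hz
          simp only [mem_ofPred_eq] at hz ⊢
          rw [dt_smul, hz, mul_zero])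
      ext w
      rw [hkey w]
      simp only [mem_ofPred_eq]
      rw [hN w]
      rfl
  · intro r hr
    have hB : Φ '' {x | x ∈ Metric.ball q r ∧ x ∈ Metric.ball p ρ0} ∈ 𝓝 (s • y) := by
      rw [← hmapq]
      exact image_mem_map (Filter.inter_mem (Metric.ball_mem_nhds q hr)
        (Metric.isOpen_ball.mem_nhds hqρ0))
    have hle : ∀ k, dt (s • y) (v i) ≤ dt (s • y) (v k) := by
      intro k
      by_cases h1 : k = i
      · rw [h1]
      by_cases h2 : k = j
      · rw [h2]; exact hsy.le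
      exact (hsk k h1 h2).le
    have hgen : ∀ l : Fin m, (∀ k, dt (s • y) (v l) ≤ dt (s • y) (v k)) →
        ∃ x ∈ Metric.ball q r, x ∈ Metric.ball p ρ0 ∧ Φ x ∈ Sg v l := by
      intro l hl
      obtain ⟨w, hw⟩ := hne l
      have hlim2 : Tendsto (fun ε : ℝ => s • y + ε • w) (𝓝[>] 0) (𝓝 (s • y)) := by
        have : Tendsto (fun ε : ℝ => s • y + ε • w) (𝓝 0) (𝓝 (s • y + (0 : ℝ) • w)) :=
          (continuous_const.add (continuous_id.smul continuous_const)).tendsto 0
        rw [zero_smul, add_zero] at this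
        exact this.mono_left nhdsWithin_le_nhds
      obtain ⟨ε, ⟨x, ⟨hx1, hx2⟩, hx3⟩, hε⟩ := ((hlim2.eventually_mem hB).and self_mem_nhdsWithin).exists
      refine ⟨x, hx1, hx2, ?_⟩
      rw [hx3]
      intro k hk
      rw [dt_add, dt_add, dt_smul ε, dt_smul ε]
      exact add_lt_add_of_le_of_lt (hl k) (mul_lt_mul_of_pos_left (hw k hk) hε)
    exact ⟨hgen i hle, hgen j (fun k => hsy ▸ hle k)⟩

end Pool.Agent.Helper95.MC
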