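import Pool.Agent.Helper69.MC.StC

/-!
# Project MC, module LKA: curves which meet `S` only near a given point
-/

set_option autoImplicit false

namespace Pool.Agent.Helper95.MC

open Set Topology Filter MeasureTheory
open Pool.Agent.Helper31.CY Pool.Agent.Helper69.MF Pool.Agent.Helper69.MC

lemma lka_pt0 (a b c : ℝ) : (pt a b c) 0 = a := by simp [pt]
lemma lka_pt1 (a b c : ℝ) : (pt a b c) 1 = b := by simp [pt]
lemma lka_pt2 (a b c : ℝ) : (pt a b c) 2 = c := by simp [pt]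

lemma lka_cont (a b : ℝ) : Continuous (fun z : ℝ => pt a b z) := by
  unfold pt
  refine (PiLp.continuous_toLp 2 _).comp ?_
  refine continuous_pi ?_
  intro i
  fin_cases i
  · simpa using continuous_const
  · simpa using continuous_const
  · exact continuous_id

lemma lka_vert (F : Set E3) (a b z0 z1 : ℝ) (hF : ∀ z ∈ uIcc z0 z1, pt a b z ∈ F) :
    JoinedIn F (pt a b z0) (pt a b z1) := by
  have h1 : IsPathConnected (uIcc z0 z1) :=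
    (convex_uIcc z0 z1).isPathConnected ⟨z0, left_mem_uIcc⟩
  have h2 := h1.image (lka_cont a b)
  exact (h2.joinedIn _ ⟨z0, left_mem_uIcc, rfl⟩ _ ⟨z1, right_mem_uIcc, rfl⟩).mono (by
    rintro _ ⟨z, hz, rfl⟩
    exact hF z hz)

lemma lka_dist (a b z w : ℝ) : dist (pt a b z) (pt a b w) = |z - w| := by
  rw [EuclideanSpace.dist_eq, Fin.sum_univ_three]
  simp only [lka_pt0, lka_pt1, lka_pt2, dist_self]
  rw [Real.dist_eq, sq_abs]
  rw [show (0:ℝ) ^ 2 + 0 ^ 2 + (z - w) ^ 2 = (z - w) ^ 2 by ring]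
  exact Real.sqrt_sq_eq_abs _

lemma lka_two (S : Set E3) (K0 K1 : Set (ℝ × ℝ)) (h : ℝ) (A : Fin 3 → Set E3)
    (hC : Cells K0 K1 h S A) (q : E3) (r : ℝ) (hr : 0 < r) (hq : q ∈ S)
    (hqG : q ∉ Gm K0 K1 h) (hLCC : StLCC) (m : ℕ) (v : Fin (m + 2) → E3) (hv : Adj v)
    (hM : ModelAt S (Cn v) q) :
    ∃ i j, i ≠ j ∧ ∃ a ∈ A i, ∃ b ∈ A j, ∃ ρ : ℝ, ρ ≤ r ∧ Metric.ball q ρ ⊆ Sl h ∧
      a ∈ Metric.ball q ρ ∧ b ∈ Metric.ball q ρ := by
  obtain ⟨ρ0, L, hL, -⟩ := hLCC S (m + 2) v q (by omega) hv hM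
  obtain ⟨hρ0, hLo, hLp, hLS, hLd⟩ := hL
  obtain ⟨hA, hAd, hAu, hAl, -⟩ := hC
  obtain ⟨ρ, hρ, hρs, hρc⟩ := hAl q hq hqG
  set ρ' : ℝ := min (min ρ0 (ρ / 2)) r with hρ'
  have h1 : 0 < ρ' := by
    rw [hρ']
    exact lt_min (lt_min hρ0 (by linarith)) hr
  have h2 : ρ' ≤ ρ0 := le_trans (min_le_left _ _) (min_le_left _ _)
  have h3 : ρ' ≤ ρ / 2 := le_trans (min_le_left _ _) (min_le_right _ _)
  have h4 : ρ' ≤ r := min_le_right _ _
  have h5 : Metric.ball q ρ' ⊆ Sl h := (Metric.ball_subset_ball (by linarith)).trans hρs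
  obtain ⟨x0, hx0b, hx0L⟩ := (hLp ρ' h1 h2 0).nonempty
  obtain ⟨x1, hx1b, hx1L⟩ := (hLp ρ' h1 h2 1).nonempty
  have hbb : Metric.ball q ρ' ⊆ Metric.ball q ρ0 := Metric.ball_subset_ball h2
  have hx0S : x0 ∉ S := (hLS x0 (hbb hx0b)).2 ⟨0, hx0L⟩
  have hx1S : x1 ∉ S := (hLS x1 (hbb hx1b)).2 ⟨1, hx1L⟩
  have hx0A : x0 ∈ ⋃ i, A i := by
    rw [hAu]
    exact ⟨h5 hx0b, hx0S⟩
  have hx1A : x1 ∈ ⋃ i, A i := by
    rw [hAu]
    exact ⟨h5 hx1b, hx1S⟩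
  obtain ⟨i, hi⟩ := mem_iUnion.1 hx0A
  obtain ⟨j, hj⟩ := mem_iUnion.1 hx1A
  refine ⟨i, j, ?_, x0, hi, x1, hj, ρ', h4, h5, hx0b, hx1b⟩
  rintro rfl
  have hpre := hρc ρ' h1 (by linarith) i
  have hU : IsOpen (⋃ k ∈ {k : Fin (m + 2) | k ≠ 0}, (Metric.ball q ρ0 ∩ L k)) :=
    isOpen_biUnion (fun k _ => hLo k)
  have hsub : Metric.ball q ρ' ∩ A i ⊆ (Metric.ball q ρ0 ∩ L 0) ∪
      (⋃ k ∈ {k : Fin (m + 2) | k ≠ 0}, (Metric.ball q ρ0 ∩ L k)) := by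
    rintro x ⟨hxb, hxA⟩
    have hxS : x ∉ S := by
      have : x ∈ ⋃ i, A i := mem_iUnion.2 ⟨i, hxA⟩
      rw [hAu] at this
      exact this.2
    obtain ⟨k, hk⟩ := (hLS x (hbb hxb)).1 hxS
    by_cases hk0 : k = 0
    · left
      rw [hk0] at hk
      exact ⟨hbb hxb, hk⟩
    · right
      exact mem_biUnion (show k ∈ {k : Fin (m + 2) | k ≠ 0} from hk0) ⟨hbb hxb, hk⟩
  have h10 : (1 : Fin (m + 2)) ≠ 0 := by
    intro h
    have := congrArg Fin.val h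
    simp at this
  obtain ⟨x, -, hxu, hxv⟩ := hpre _ _ (hLo 0) hU hsub ⟨x0, ⟨hx0b, hi⟩, hbb hx0b, hx0L⟩
    ⟨x1, ⟨hx1b, hj⟩, mem_biUnion (show (1 : Fin (m + 2)) ∈ {k : Fin (m + 2) | k ≠ 0} from h10)
      ⟨hbb hx1b, hx1L⟩⟩
  obtain ⟨k, hk, hxk⟩ := mem_iUnion₂.1 hxv
  exact (Set.disjoint_left.1 (hLd 0 k (Ne.symm hk))) hxu.2 hxk.2

theorem hLKA : StLOP → StLCC → StCNE → StRPL → StPGL → StLKA := by
  intro hLOP hLCC hCNE hRPL _ K0 K1 h S A h0 hK0 hK1 hM hSl hC q hq hqG r hr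
  obtain ⟨hY, hT, -, aP, aY, aT, -⟩ := hCNE
  -- two cells near `q`
  have htwo : ∃ i j, i ≠ j ∧ ∃ a ∈ A i, ∃ b ∈ A j, ∃ ρ : ℝ, ρ ≤ r ∧ Metric.ball q ρ ⊆ Sl h ∧
      a ∈ Metric.ball q ρ ∧ b ∈ Metric.ball q ρ := by
    rcases hM.int q hq hqG with h1 | h1 | h1
    · exact lka_two S K0 K1 h A hC q r hr hq hqG hLCC 0 vP aP (hRPL S q hq h1)
    · rw [← hY] at h1
      exact lka_two S K0 K1 h A hC q r hr hq hqG hLCC 1 vY aY h1
    · rw [← hT] at h1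
      exact lka_two S K0 K1 h A hC q r hr hq hqG hLCC 2 tv aT h1
  obtain ⟨i, j, hij, a, ha, b, hb, ρ, hρr, hρs, haρ, hbρ⟩ := htwo
  obtain ⟨hA, hAd, hAu, hAl, hA0, hA1, hA2, R, hR⟩ := hC
  obtain ⟨o0, ho0⟩ := hK0.2.2
  obtain ⟨o1, ho1⟩ := hK1.2.2
  -- elementary facts
  have hfr0 : ∀ x : ℝ × ℝ, x ∈ frontier K0 → x ∈ K0 ∧ x ∉ interior K0 := by
    intro x hx
    rw [hK0.1.isClosed.frontier_eq] at hx
    exact hx
  have hfr1 : ∀ x : ℝ × ℝ, x ∈ frontier K1 → x ∈ K1 ∧ x ∉ interior K1 := by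
    intro x hx
    rw [hK1.1.isClosed.frontier_eq] at hx
    exact hx
  have hGS : ∀ x ∈ Sl h, x ∉ Gm K0 K1 h := by
    rintro x ⟨hx1, hx2⟩ (⟨-, hx⟩ | ⟨-, hx⟩)
    · rw [hx] at hx1
      exact lt_irrefl _ hx1
    · rw [hx] at hx2
      exact lt_irrefl _ hx2
  have hAi : ∀ k, ∀ x ∈ A k, x ∈ Sl h ∧ x ∉ S ∧ x ∉ Gm K0 K1 h := by
    intro k x hx
    have h1 : x ∈ ⋃ i, A i := mem_iUnion.2 ⟨k, hx⟩
    rw [hAu] at h1
    exact ⟨h1.1, h1.2, hGS x h1.1⟩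
  have hout : ∀ x : E3, x ∉ Sl h → x ∉ Gm K0 K1 h → x ∉ S := fun x hx hG hS => hx (hSl x hS hG)
  -- the far point
  obtain ⟨C0, hC0⟩ := hK0.1.isBounded.exists_norm_le
  obtain ⟨C1, hC1⟩ := hK1.1.isBounded.exists_norm_le
  set Y : ℝ := max (max C0 C1) (max R 0) + 1 with hYd
  have hYC0 : C0 < Y := by
    have : C0 ≤ max (max C0 C1) (max R 0) := le_trans (le_max_left _ _) (le_max_left _ _)
    linarith
  have hYC1 : C1 < Y := by
    have : C1 ≤ max (max C0 C1) (max R 0) := le_trans (le_max_right _ _) (le_max_left _ _)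
    linarith
  have hYR : R < Y := by
    have : R ≤ max (max C0 C1) (max R 0) := le_trans (le_max_left _ _) (le_max_right _ _)
    linarith
  have hY0 : 0 < Y := by
    have : (0 : ℝ) ≤ max (max C0 C1) (max R 0) := le_trans (le_max_right _ _) (le_max_right _ _)
    linarith
  have hnY : ‖((Y, 0) : ℝ × ℝ)‖ = Y := by
    rw [Prod.norm_def]
    simp only [norm_zero]
    rw [Real.norm_eq_abs, abs_of_pos hY0]
    exact max_eq_left hY0.le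
  have hYK0 : ((Y, 0) : ℝ × ℝ) ∉ K0 := by
    intro h1
    have := hC0 _ h1
    rw [hnY] at this
    linarith
  have hYK1 : ((Y, 0) : ℝ × ℝ) ∉ K1 := by
    intro h1
    have := hC1 _ h1
    rw [hnY] at this
    linarith
  have hYG : ∀ z : ℝ, pt Y 0 z ∉ Gm K0 K1 h := by
    rintro z (⟨h1, -⟩ | ⟨h1, -⟩)
    · rw [lka_pt0, lka_pt1] at h1
      exact hYK0 (hfr0 _ h1).1
    · rw [lka_pt0, lka_pt1] at h1
      exact hYK1 (hfr1 _ h1).1
  have hYA : ∀ z : ℝ, 0 < z → z < h → pt Y 0 z ∈ A 2 := by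
    intro z hz1 hz2
    apply hR
    · refine ⟨?_, ?_⟩
      · rw [lka_pt2]
        exact hz1
      · rw [lka_pt2]
        exact hz2
    · unfold rad
      rw [lka_pt0, lka_pt1, show Y ^ 2 + (0:ℝ) ^ 2 = Y ^ 2 by ring, Real.sqrt_sq hY0.le]
      exact hYR
  have hYS : ∀ z : ℝ, pt Y 0 z ∉ S := by
    intro z
    by_cases hz : 0 < z ∧ z < h
    · exact (hAi 2 _ (hYA z hz.1 hz.2)).2.1
    · apply hout _ _ (hYG z)
      rintro ⟨h1, h2⟩
      rw [lka_pt2] at h1 h2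
      exact hz ⟨h1, h2⟩
  -- the vertical segments over `o0` and `o1`
  obtain ⟨ε0, hε0, hε0A⟩ : ∃ ε0 : ℝ, 0 < ε0 ∧ ∀ z : ℝ, 0 < z → z ≤ ε0 → pt o0.1 o0.2 z ∈ A 0 := by
    obtain ⟨r0, hr0, hr0A⟩ := hA0 (pt o0.1 o0.2 0) (by rw [lka_pt0, lka_pt1]; exact ho0)
      (lka_pt2 _ _ _)
    refine ⟨min (r0 / 2) (h / 2), lt_min (by linarith) (by linarith), ?_⟩
    intro z hz1 hz2
    have hz3 : z ≤ r0 / 2 := le_trans hz2 (min_le_left _ _)
    have hz4 : z ≤ h / 2 := le_trans hz2 (min_le_right _ _)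
    apply hr0A
    · refine ⟨?_, ?_⟩
      · rw [lka_pt2]
        exact hz1
      · rw [lka_pt2]
        linarith
    · rw [lka_dist, sub_zero, abs_of_pos hz1]
      linarith
  obtain ⟨ε1, hε1, hε1h, hε1A⟩ : ∃ ε1 : ℝ, 0 < ε1 ∧ ε1 < h ∧
      ∀ z : ℝ, h - ε1 ≤ z → z < h → pt o1.1 o1.2 z ∈ A 1 := by
    obtain ⟨r0, hr0, hr0A⟩ := hA1 (pt o1.1 o1.2 h) (by rw [lka_pt0, lka_pt1]; exact ho1)
      (lka_pt2 _ _ _)
    have hm : min (r0 / 2) (h / 2) ≤ h / 2 := min_le_right _ _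
    refine ⟨min (r0 / 2) (h / 2), lt_min (by linarith) (by linarith), by linarith, ?_⟩
    intro z hz1 hz2
    have hz3 : min (r0 / 2) (h / 2) ≤ r0 / 2 := min_le_left _ _
    apply hr0A
    · refine ⟨?_, ?_⟩
      · rw [lka_pt2]
        linarith
      · rw [lka_pt2]
        exact hz2
    · rw [lka_dist, abs_sub_comm, abs_of_pos (by linarith)]
      linarith
  have ho0G : pt o0.1 o0.2 0 ∉ Gm K0 K1 h := by
    rintro (⟨h1, -⟩ | ⟨-, h1⟩)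
    · rw [lka_pt0, lka_pt1] at h1
      exact (hfr0 _ h1).2 ho0
    · rw [lka_pt2] at h1
      linarith
  have ho1G : pt o1.1 o1.2 h ∉ Gm K0 K1 h := by
    rintro (⟨-, h1⟩ | ⟨h1, -⟩)
    · rw [lka_pt2] at h1
      linarith
    · rw [lka_pt0, lka_pt1] at h1
      exact (hfr1 _ h1).2 ho1
  -- the set where the path lives
  set F : Set E3 := {x | x ∉ Gm K0 K1 h ∧ (x ∈ S → x ∈ Metric.ball q r)} with hF
  have hAF : ∀ k, A k ⊆ F ∩ {x | 0 ≤ x 2} ∩ {x | x 2 ≤ h} := by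
    intro k x hx
    obtain ⟨h1, h2, h3⟩ := hAi k x hx
    exact ⟨⟨⟨h3, fun h4 => absurd h4 h2⟩, h1.1.le⟩, h1.2.le⟩
  have hseg : JoinedIn (F ∩ {x | 0 ≤ x 2} ∩ {x | x 2 ≤ h}) a b := by
    have h1 : IsPathConnected (Metric.ball q ρ) :=
      (convex_ball q ρ).isPathConnected ⟨a, haρ⟩
    refine (h1.joinedIn a haρ b hbρ).mono ?_
    intro x hx
    have h2 := hρs hx
    exact ⟨⟨⟨hGS x h2, fun _ => Metric.ball_subset_ball hρr hx⟩, h2.1.le⟩, h2.2.le⟩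
  have hst0 : ∀ x ∈ A 0, JoinedIn (F ∩ {x | 0 ≤ x 2}) (pt o0.1 o0.2 0) x := by
    intro x hx
    have h1 : JoinedIn (F ∩ {x | 0 ≤ x 2}) (pt o0.1 o0.2 0) (pt o0.1 o0.2 ε0) := by
      apply lka_vert
      intro z hz
      rw [uIcc_of_le hε0.le] at hz
      rcases hz.1.eq_or_lt with h2 | h2
      · rw [← h2]
        refine ⟨⟨ho0G, fun h3 => absurd h3 (hout _ ?_ ho0G)⟩, ?_⟩
        · rintro ⟨h4, -⟩
          rw [lka_pt2] at h4
          exact lt_irrefl _ h4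
        · change (0:ℝ) ≤ (pt o0.1 o0.2 0) 2
          rw [lka_pt2]
      · exact (hAF 0 (hε0A z h2 hz.2)).1
    have h2 : JoinedIn (A 0) (pt o0.1 o0.2 ε0) x :=
      (hA 0).2.joinedIn _ (hε0A ε0 hε0 le_rfl) _ hx
    exact h1.trans (h2.mono (fun x hx => (hAF 0 hx).1))
  have hst2 : ∀ x ∈ A 2, ∀ w, w = 0 ∨ w = h →
      JoinedIn (F ∩ {x | 0 ≤ x 2} ∩ {x | x 2 ≤ h}) x (pt Y 0 w) := by
    intro x hx w hw
    have h1 : JoinedIn (A 2) x (pt Y 0 (h / 2)) :=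
      (hA 2).2.joinedIn _ hx _ (hYA _ (by linarith) (by linarith))
    refine (h1.mono (hAF 2)).trans ?_
    apply lka_vert
    intro z hz
    have hz2 : 0 ≤ z ∧ z ≤ h := by
      rcases hw with hw | hw
      · rw [hw, uIcc_of_ge (by linarith)] at hz
        exact ⟨hz.1, by linarith [hz.2]⟩
      · rw [hw, uIcc_of_le (by linarith)] at hz
        exact ⟨by linarith [hz.1], hz.2⟩
    refine ⟨⟨⟨hYG z, fun h3 => absurd h3 (hYS z)⟩, ?_⟩, ?_⟩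
    · change (0:ℝ) ≤ (pt Y 0 z) 2
      rw [lka_pt2]
      exact hz2.1
    · change (pt Y 0 z) 2 ≤ h
      rw [lka_pt2]
      exact hz2.2
  have hst1 : ∀ x ∈ A 1, JoinedIn (F ∩ {x | x 2 ≤ h}) (pt o1.1 o1.2 h) x := by
    intro x hx
    have h1 : JoinedIn (F ∩ {x | x 2 ≤ h}) (pt o1.1 o1.2 h) (pt o1.1 o1.2 (h - ε1)) := by
      apply lka_vert
      intro z hz
      rw [uIcc_of_ge (by linarith)] at hz
      rcases hz.2.eq_or_lt with h2 | h2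
      · rw [h2]
        refine ⟨⟨ho1G, fun h3 => absurd h3 (hout _ ?_ ho1G)⟩, ?_⟩
        · rintro ⟨-, h4⟩
          rw [lka_pt2] at h4
          exact lt_irrefl _ h4
        · change (pt o1.1 o1.2 h) 2 ≤ h
          rw [lka_pt2]
      · have := hAF 1 (hε1A z hz.1 h2)
        exact ⟨this.1.1, this.2⟩
    have h2 : JoinedIn (A 1) (pt o1.1 o1.2 (h - ε1)) x :=
      (hA 1).2.joinedIn _ (hε1A _ le_rfl (by linarith)) _ hx
    exact h1.trans (h2.mono (fun x hx => ⟨(hAF 1 hx).1.1, (hAF 1 hx).2⟩))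
  have hst1' : ∀ x ∈ A 1, JoinedIn (F ∩ {x | 0 ≤ x 2}) x (pt Y 0 0) := by
    intro x hx
    have h1 : JoinedIn (A 1) x (pt o1.1 o1.2 (h - ε1)) :=
      (hA 1).2.joinedIn _ hx _ (hε1A _ le_rfl (by linarith))
    have h2 : JoinedIn (F ∩ {x | 0 ≤ x 2}) (pt o1.1 o1.2 (h - ε1)) (pt o1.1 o1.2 (h + 1)) := by
      apply lka_vert
      intro z hz
      rw [uIcc_of_le (by linarith)] at hz
      rcases lt_or_ge z h with h2 | h2
      · exact (hAF 1 (hε1A z hz.1 h2)).1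
      · have hG : pt o1.1 o1.2 z ∉ Gm K0 K1 h := by
          rintro (⟨-, h3⟩ | ⟨h3, -⟩)
          · rw [lka_pt2] at h3
            linarith
          · rw [lka_pt0, lka_pt1] at h3
            exact (hfr1 _ h3).2 ho1
        refine ⟨⟨hG, fun h3 => absurd h3 (hout _ ?_ hG)⟩, ?_⟩
        · rintro ⟨-, h4⟩
          rw [lka_pt2] at h4
          linarith
        · change (0:ℝ) ≤ (pt o1.1 o1.2 z) 2
          rw [lka_pt2]
          linarith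
    have h3 : JoinedIn (F ∩ {x | 0 ≤ x 2}) (pt o1.1 o1.2 (h + 1)) (pt Y 0 (h + 1)) := by
      have hcv : Convex ℝ {x : E3 | h < x 2} := by
        intro x hx y hy s t hs ht hst
        change h < (s • x + t • y) 2
        have e : (s • x + t • y) 2 = s * x 2 + t * y 2 := by simp
        rw [e]
        have hx' : h < x 2 := hx
        have hy' : h < y 2 := hy
        have e2 : h = s * h + t * h := by rw [← add_mul, hst, one_mul]
        rcases hs.eq_or_lt with h5 | h5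
        · have h6 : t = 1 := by linarith
          rw [← h5, h6]
          linarith
        · have h7 : s * h < s * x 2 := mul_lt_mul_of_pos_left hx' h5
          have h8 : t * h ≤ t * y 2 := mul_le_mul_of_nonneg_left hy'.le ht
          linarith
      have m1 : pt o1.1 o1.2 (h + 1) ∈ {x : E3 | h < x 2} := by
        change h < (pt o1.1 o1.2 (h + 1)) 2
        rw [lka_pt2]
        linarith
      have m2 : pt Y 0 (h + 1) ∈ {x : E3 | h < x 2} := by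
        change h < (pt Y 0 (h + 1)) 2
        rw [lka_pt2]
        linarith
      refine ((hcv.isPathConnected ⟨_, m1⟩).joinedIn _ m1 _ m2).mono ?_
      intro x hx
      have hx' : h < x 2 := hx
      have hG : x ∉ Gm K0 K1 h := by
        rintro (⟨-, h3⟩ | ⟨-, h3⟩)
        · linarith
        · linarith
      refine ⟨⟨hG, fun h3 => absurd h3 (hout _ ?_ hG)⟩, ?_⟩
      · rintro ⟨-, h4⟩
        linarith
      · change (0:ℝ) ≤ x 2
        linarith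
    have h4 : JoinedIn (F ∩ {x | 0 ≤ x 2}) (pt Y 0 (h + 1)) (pt Y 0 0) := by
      apply lka_vert
      intro z hz
      rw [uIcc_of_ge (by linarith)] at hz
      refine ⟨⟨hYG z, fun h3 => absurd h3 (hYS z)⟩, ?_⟩
      change (0:ℝ) ≤ (pt Y 0 z) 2
      rw [lka_pt2]
      exact hz.1
    exact (((h1.mono (fun x hx => (hAF 1 hx).1)).trans h2).trans h3).trans h4
  -- from a path to a curve
  have hend0 : JoinedIn (F ∩ {x | 0 ≤ x 2}) (pt o0.1 o0.2 0) (pt Y 0 0) →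
      ∃ γ ∈ NT (Gm K0 K1 h), ∀ s, γ s ∈ S → γ s ∈ Metric.ball q r := by
    rintro ⟨P, hP⟩
    obtain ⟨γ, hγ, hγP⟩ := (hLOP K0 K1 h h0 hK0 hK1 o0 (Y, 0)).1 ho0 hYK0 P P.continuous
      P.source P.target (fun s => ⟨(hP s).2, (hP s).1.1⟩)
    refine ⟨γ, hγ, ?_⟩
    intro s hs
    rcases hγP s with ⟨t, ht⟩ | h1
    · rw [← ht] at hs ⊢
      exact (hP t).1.2 hs
    · exfalso
      have h2 := hSl _ hs (hγ.1.2.2 s)
      exact absurd h2.1 (not_lt.2 h1)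
  have hend1 : JoinedIn (F ∩ {x | x 2 ≤ h}) (pt o1.1 o1.2 h) (pt Y 0 h) →
      ∃ γ ∈ NT (Gm K0 K1 h), ∀ s, γ s ∈ S → γ s ∈ Metric.ball q r := by
    rintro ⟨P, hP⟩
    obtain ⟨γ, hγ, hγP⟩ := (hLOP K0 K1 h h0 hK0 hK1 o1 (Y, 0)).2 ho1 hYK1 P P.continuous
      P.source P.target (fun s => ⟨(hP s).2, (hP s).1.1⟩)
    refine ⟨γ, hγ, ?_⟩
    intro s hs
    rcases hγP s with ⟨t, ht⟩ | h1
    · rw [← ht] at hs ⊢
      exact (hP t).1.2 hs
    · exfalso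
      have h2 := hSl _ hs (hγ.1.2.2 s)
      exact absurd h2.2 (not_lt.2 h1)
  -- the cases
  have hsegs : JoinedIn (F ∩ {x | 0 ≤ x 2} ∩ {x | x 2 ≤ h}) b a := hseg.symm
  have s0 : F ∩ {x | 0 ≤ x 2} ∩ {x | x 2 ≤ h} ⊆ F ∩ {x | 0 ≤ x 2} := fun x hx => hx.1
  have s1 : F ∩ {x | 0 ≤ x 2} ∩ {x | x 2 ≤ h} ⊆ F ∩ {x | x 2 ≤ h} := fun x hx => ⟨hx.1.1, hx.2⟩
  have c02 : ∀ x ∈ A 0, ∀ y ∈ A 2, JoinedIn (F ∩ {x | 0 ≤ x 2} ∩ {x | x 2 ≤ h}) x y →
      ∃ γ ∈ NT (Gm K0 K1 h), ∀ s, γ s ∈ S → γ s ∈ Metric.ball q r := by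
    intro x hx y hy hj
    exact hend0 (((hst0 x hx).trans (hj.mono s0)).trans ((hst2 y hy 0 (Or.inl rfl)).mono s0))
  have c01 : ∀ x ∈ A 0, ∀ y ∈ A 1, JoinedIn (F ∩ {x | 0 ≤ x 2} ∩ {x | x 2 ≤ h}) x y →
      ∃ γ ∈ NT (Gm K0 K1 h), ∀ s, γ s ∈ S → γ s ∈ Metric.ball q r := by
    intro x hx y hy hj
    exact hend0 (((hst0 x hx).trans (hj.mono s0)).trans (hst1' y hy))
  have c12 : ∀ x ∈ A 1, ∀ y ∈ A 2, JoinedIn (F ∩ {x | 0 ≤ x 2} ∩ {x | x 2 ≤ h}) x y →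
      ∃ γ ∈ NT (Gm K0 K1 h), ∀ s, γ s ∈ S → γ s ∈ Metric.ball q r := by
    intro x hx y hy hj
    exact hend1 (((hst1 x hx).trans (hj.mono s1)).trans ((hst2 y hy h (Or.inr rfl)).mono s1))
  fin_cases i <;> fin_cases j
  · exact absurd rfl hij
  · exact c01 a ha b hb hseg
  · exact c02 a ha b hb hseg
  · exact c01 b hb a ha hsegs
  · exact absurd rfl hij
  · exact c12 a ha b hb hseg
  · exact c02 b hb a ha hsegs
  · exact c12 b hb a ha hsegs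
  · exact absurd rfl hij

end Pool.Agent.Helper95.MC
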